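import Pool.Agent.H933.LL.Stm8
import Pool.Agent.H17.LL.Whit

/-!
# From averages over Whitney discs to integrability, general cost

`p_whit4 (h : P_jen) : P_whit4`.
-/

set_option autoImplicit false

open MeasureTheory Metric Set
open scoped Real ENNReal

namespace Pool.Agent.H662.LL

open Pool.Agent.H933.LL Pool.Agent.H17.LL

/-- the pointwise bound from `P_jen` -/
lemma pt4 (q : ℝ) (hq : 1 < q) (C : ℝ) (hC : 0 < C)
    (hj : ∀ (m : Measure ℂ) (m0 D : ℝ) (x : ℂ → ℝ),
      m Set.univ ≤ ENNReal.ofReal m0 → 0 ≤ m0 → 1 ≤ D → AEMeasurable x m → (∀ k, 0 ≤ x k) →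
      ∫⁻ k, ENNReal.ofReal (x k) ∂m ≤ ENNReal.ofReal D →
      ∫⁻ k, ENNReal.ofReal ((Real.posLog (x k)) ^ q) ∂m
        ≤ ENNReal.ofReal (C * (m0 + 1) * (1 + Real.log D) ^ q))
    (x : ℂ → ℝ) (hx : Measurable x) (hx0 : ∀ w, 0 ≤ x w) (C' d g : ℝ) (hd : 0 < d) (hg : 0 ≤ g)
    (z : ℂ)
    (h : ∫⁻ w in ball z (d / 4), ENNReal.ofReal (x w)
      ≤ ENNReal.ofReal (Real.exp (C' * (1 + g)))) :
    (ENNReal.ofReal (d ^ 2))⁻¹ * ∫⁻ w in ball z (d / 4), ENNReal.ofReal ((Real.posLog (x w)) ^ q) ≤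
      ENNReal.ofReal (C * 2 * (|C'| + 2) ^ q * (1 + g + Real.posLog d⁻¹) ^ q) := by
  set l := Real.posLog d⁻¹ with hl
  have hl0 : 0 ≤ l := Real.posLog_nonneg
  have hd2 : 0 < d ^ 2 := by positivity
  have ha : ENNReal.ofReal (d ^ 2) ≠ 0 := by
    rw [Ne, ENNReal.ofReal_eq_zero]
    linarith
  have ha' : ENNReal.ofReal (d ^ 2) ≠ ⊤ := ENNReal.ofReal_ne_top
  set m : Measure ℂ := (ENNReal.ofReal (d ^ 2))⁻¹ • volume.restrict (ball z (d / 4)) with hm
  have hlin : ∀ f : ℂ → ℝ≥0∞, ∫⁻ w, f w ∂m = (ENNReal.ofReal (d ^ 2))⁻¹ *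
      ∫⁻ w in ball z (d / 4), f w := by
    intro f
    rw [hm, lintegral_smul_measure, smul_eq_mul]
  have h1 : m univ ≤ ENNReal.ofReal 1 := by
    have e : m univ = (ENNReal.ofReal (d ^ 2))⁻¹ * volume (ball z (d / 4)) := by
      rw [hm, Measure.smul_apply, Measure.restrict_apply MeasurableSet.univ, univ_inter,
        smul_eq_mul]
    rw [e, vol z (by positivity)]
    refine inv_mul_le ha ha' ?_
    rw [← ENNReal.ofReal_mul hd2.le]
    refine ENNReal.ofReal_le_ofReal ?_
    have := Real.pi_le_four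
    nlinarith
  have hC0 : 0 ≤ |C'| := abs_nonneg _
  set D := Real.exp (|C'| * (1 + g) + 2 * l) with hD
  have hD1 : 1 ≤ D := Real.one_le_exp (by positivity)
  have h2 : ∫⁻ w, ENNReal.ofReal (x w) ∂m ≤ ENNReal.ofReal D := by
    rw [hlin]
    refine inv_mul_le ha ha' (h.trans ?_)
    rw [← ENNReal.ofReal_mul hd2.le]
    refine ENNReal.ofReal_le_ofReal ?_
    have e1 : d ^ 2 = Real.exp (2 * Real.log d) := by
      rw [mul_comm, Real.exp_mul, Real.exp_log hd]
      norm_num
    rw [e1, hD, ← Real.exp_add]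
    refine Real.exp_le_exp.2 ?_
    have h3 : - Real.log d ≤ l := by
      rw [← Real.log_inv, hl]
      exact le_max_right _ _
    have h4 : C' * (1 + g) ≤ |C'| * (1 + g) :=
      mul_le_mul_of_nonneg_right (le_abs_self _) (by positivity)
    linarith
  have h3 := hj m 1 D x h1 zero_le_one hD1 hx.aemeasurable hx0 h2
  rw [hlin] at h3
  refine h3.trans (ENNReal.ofReal_le_ofReal ?_)
  have e2 : Real.log D = |C'| * (1 + g) + 2 * l := Real.log_exp _
  rw [e2]
  have h6 : 1 + (|C'| * (1 + g) + 2 * l) ≤ (|C'| + 2) * (1 + g + l) := by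
    have h61 : 0 ≤ |C'| * l := by positivity
    nlinarith
  have h7 : (1 + (|C'| * (1 + g) + 2 * l)) ^ q ≤ ((|C'| + 2) * (1 + g + l)) ^ q :=
    Real.rpow_le_rpow (by positivity) h6 (by linarith)
  rw [Real.mul_rpow (by positivity) (by positivity)] at h7
  calc C * (1 + 1) * (1 + (|C'| * (1 + g) + 2 * l)) ^ q
      ≤ C * (1 + 1) * ((|C'| + 2) ^ q * (1 + g + l) ^ q) := by
        exact mul_le_mul_of_nonneg_left h7 (by positivity)
    _ = _ := by ring

lemma el_ineq4 (a b q : ℝ) (ha : 0 ≤ a) (hb : 0 ≤ b) (hq : 1 < q) :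
    (1 + a + b) ^ q ≤ 3 ^ q * (1 + a ^ q + b ^ q) := by
  have hq0 : 0 ≤ q := by linarith
  have h6 : 1 + a + b ≤ 3 * max 1 (max a b) := by
    have h1 : a ≤ max 1 (max a b) := (le_max_left a b).trans (le_max_right _ _)
    have h2 : b ≤ max 1 (max a b) := (le_max_right a b).trans (le_max_right _ _)
    have h3 : 1 ≤ max 1 (max a b) := le_max_left _ _
    linarith
  have h7 : 0 ≤ a ^ q := Real.rpow_nonneg ha _
  have h8 : 0 ≤ b ^ q := Real.rpow_nonneg hb _
  calc (1 + a + b) ^ q ≤ (3 * max 1 (max a b)) ^ q :=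
        Real.rpow_le_rpow (by positivity) h6 hq0
    _ = 3 ^ q * (max 1 (max a b)) ^ q := by
        rw [Real.mul_rpow (by norm_num) (by positivity)]
    _ ≤ 3 ^ q * (1 + a ^ q + b ^ q) := by
        refine mul_le_mul_of_nonneg_left ?_ (by positivity)
        rcases le_total 1 (max a b) with h | h
        · rw [max_eq_right h]
          rcases le_total a b with h' | h'
          · rw [max_eq_right h']; linarith
          · rw [max_eq_left h']; linarith
        · rw [max_eq_left h, Real.one_rpow]; linarith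

lemma fin_int4 (E : Set ℂ) (g : ℂ → ℝ) (hg : ∀ w, 0 ≤ g w) (q : ℝ) (hq : 1 < q) (B : ℝ)
    (hB : 0 ≤ B) (r : ℝ)
    (hint1 : IntegrableOn (fun z : ℂ => g z ^ q) (ball (0 : ℂ) r))
    (hint : IntegrableOn (fun z : ℂ => (Real.posLog (infDist z E)⁻¹) ^ q) (ball (0 : ℂ) r)) :
    ∫⁻ z in ball (0 : ℂ) r, ENNReal.ofReal (B *
      (1 + g z + Real.posLog (infDist z E)⁻¹) ^ q) < ⊤ := by
  have h1 : IntegrableOn (fun _ : ℂ => (1 : ℝ)) (ball (0 : ℂ) r) :=
    integrableOn_const (by rw [Complex.volume_ball]; finiteness)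
  have h4 : IntegrableOn (fun z : ℂ => B * (3 ^ q *
      (1 + g z ^ q + (Real.posLog (infDist z E)⁻¹) ^ q))) (ball (0 : ℂ) r) :=
    Integrable.const_mul (Integrable.const_mul ((h1.add hint1).add hint) _) _
  refine lt_of_le_of_lt ?_ h4.lintegral_lt_top
  refine lintegral_mono fun z => ENNReal.ofReal_le_ofReal ?_
  exact mul_le_mul_of_nonneg_left (el_ineq4 _ _ q (hg z) Real.posLog_nonneg hq) hB

theorem p_whit4 (h : P_jen) : P_whit4 := by
  intro x g0 E G q hq hx hx0 hE hne hE0 _ hg00 hint1 hint hmain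
  obtain ⟨C, hC, hj⟩ := h q hq
  constructor
  · intro r
    set g : ℂ → ℝ≥0∞ := fun w => ENNReal.ofReal ((Real.posLog (x w)) ^ q) with hg
    have hgm : Measurable g :=
      ((Real.continuous_posLog.measurable.comp hx).pow_const q).ennreal_ofReal
    have hpos : ∀ w, 0 ≤ (Real.posLog (x w)) ^ q := fun w =>
      Real.rpow_nonneg Real.posLog_nonneg q
    refine ⟨((Real.continuous_posLog.measurable.comp hx).pow_const q).aestronglyMeasurable, ?_⟩
    rw [hasFiniteIntegral_iff_ofReal (Filter.Eventually.of_forall hpos)]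
    obtain ⟨C', hC'⟩ := hmain (r + 1)
    set H := infDist 0 E + |r| + 1 with hH
    have hHpos : 0 < H := by
      have := infDist_nonneg (x := (0 : ℂ)) (s := E)
      have := abs_nonneg r
      linarith
    set c := ENNReal.ofReal ((1 / (8 * H)) ^ 2) with hc
    have hc0 : c ≠ 0 := by
      rw [hc, Ne, ENNReal.ofReal_eq_zero, not_le]
      positivity
    have hct : c ≠ ⊤ := ENNReal.ofReal_ne_top
    have hEae : ∀ᵐ z ∂(volume : Measure ℂ), z ∉ E := by
      rw [ae_iff]
      simpa using hE0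
    have h2 := core (kr E) (meas_kr E) g hgm (ball (0 : ℂ) r) (ball (0 : ℂ) (r + 1))
      measurableSet_ball measurableSet_ball c
      (hEae.mono fun w hw hwr => int_z E hE hne r H le_rfl w hwr hw)
      (fun z => ENNReal.ofReal (C * 2 * (|C'| + 2) ^ q *
          (1 + g0 z + Real.posLog (infDist z E)⁻¹) ^ q))
      (hEae.mono fun z hz hzr => by
        rw [int_w]
        exact pt4 q hq C hC hj x hx hx0 C' _ (g0 z) ((hE.notMem_iff_infDist_pos hne).1 hz)
          (hg00 z) z (hC' z hzr hz).2)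
    have h3 : ∫⁻ z in ball (0 : ℂ) (r + 1), ENNReal.ofReal (C * 2 * (|C'| + 2) ^ q *
          (1 + g0 z + Real.posLog (infDist z E)⁻¹) ^ q) < ⊤ :=
      fin_int4 E g0 hg00 q hq _ (by positivity) (r + 1) (hint1 (r + 1)) (hint (r + 1))
    have h8 : c * ∫⁻ w in ball (0 : ℂ) r, g w < ⊤ := h2.trans_lt h3
    exact (ENNReal.mul_lt_top_iff.1 h8).elim (fun h => h.2) (fun h => by
      rcases h with h | h
      · exact absurd h hc0
      · rw [h]; exact ENNReal.zero_lt_top)
  · rw [ae_iff]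
    have hE0' : volume ({w | w ∉ G} ∩ E) = 0 := measure_mono_null inter_subset_right hE0
    have h1 : volume ({w | w ∉ G} ∩ Eᶜ) = 0 := by
      refine measure_null_of_locally_null _ fun z hz => ?_
      obtain ⟨hzG, hzE⟩ := hz
      have hd : 0 < infDist z E := (hE.notMem_iff_infDist_pos hne).1 hzE
      obtain ⟨C', hC'⟩ := hmain (‖z‖ + 1)
      have h2 := (hC' z (by rw [mem_ball_zero_iff]; linarith) hzE).1
      rw [ae_restrict_iff' measurableSet_ball, ae_iff] at h2
      refine ⟨ball z (infDist z E / 4) ∩ {w | w ∉ G}, ?_, ?_⟩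
      · refine Filter.inter_mem (mem_nhdsWithin_of_mem_nhds (ball_mem_nhds _ (by positivity))) ?_
        exact Filter.mem_of_superset self_mem_nhdsWithin inter_subset_left
      · refine measure_mono_null ?_ h2
        intro w hw
        simp only [Set.mem_ofPred_eq, Classical.not_imp]
        exact ⟨hw.1, hw.2⟩
    have h3 : {w | w ∉ G} = ({w | w ∉ G} ∩ E) ∪ ({w | w ∉ G} ∩ Eᶜ) := by
      rw [← inter_union_distrib_left, union_compl_self, inter_univ]
    rw [h3]
    exact measure_union_null hE0' h1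

end Pool.Agent.H662.LL
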